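import Mathlib
import Pool.Agent.Helper18.SG.Goals
import Pool.Agent.Lead.ShMain

/-!
# Packet SG-F1 (project of helper18): the super rows of the triangle
-/

set_option autoImplicit false

namespace Pool.Agent.Helper34.SG

open Finset Pool.Agent.Lead.Sh Pool.Agent.Helper43.Ah Pool.Agent.Helper43.Gm
open Pool.Agent.Helper18.SG

lemma divmod (b q r : ℕ) (hr : r < b) : (b * q + r) / b = q ∧ (b * q + r) % b = r := by
  have hb : 0 < b := by omega
  constructor
  · rw [Nat.mul_add_div hb, Nat.div_eq_of_lt hr, Nat.add_zero]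
  · rw [Nat.mul_add_mod, Nat.mod_eq_of_lt hr]

lemma sig_inj (b : ℕ) (hb : 1 ≤ b) : Function.Injective (sig b) := by
  intro x y h
  unfold sig at h
  rw [Prod.mk.injEq] at h
  obtain ⟨h1, h2⟩ := h
  have hx := Nat.mod_lt x.2 hb
  have hy := Nat.mod_lt y.2 hb
  have a1 := divmod b x.1 (x.2 % b) hx
  have a2 := divmod b y.1 (y.2 % b) hy
  rw [h1] at a1
  have e1 : x.1 = y.1 := a1.1.symm.trans a2.1
  have e2 : x.2 % b = y.2 % b := a1.2.symm.trans a2.2
  have e3 : x.2 = y.2 := by
    rw [← Nat.div_add_mod x.2 b, ← Nat.div_add_mod y.2 b, h2, e2]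
  exact Prod.ext e1 e3

/-- the row k of the image -/
lemma rowcard (b d k : ℕ) (hb : 1 ≤ b) (hk : k < d / b + 1) :
    (((triD 0 d).image (sig b)).filter (fun x => x.2 = k)).card = rl b d (d / b - k) := by
  have hk' : d / b - (d / b - k) = k := by omega
  unfold rl
  rw [hk']
  have h1 : (((triD 0 d).image (sig b)).filter (fun x => x.2 = k)) =
      ((range b).sigma (fun j => range (d + 1 - (b * k + j)))).image
        (fun p : (Σ _ : ℕ, ℕ) => (b * p.2 + p.1, k)) := by
    ext x
    simp only [mem_filter, mem_image, mem_sigma, mem_range, mem_triD]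
    constructor
    · rintro ⟨⟨y, ⟨_, hy⟩, rfl⟩, hx⟩
      refine ⟨⟨y.2 % b, y.1⟩, ⟨Nat.mod_lt _ hb, ?_⟩, ?_⟩
      · have h2 : y.2 / b = k := hx
        have h3 := Nat.div_add_mod y.2 b
        rw [h2] at h3
        show y.1 < d + 1 - (b * k + y.2 % b)
        rw [h3]; omega
      · have h2 : y.2 / b = k := hx
        unfold sig
        rw [h2]
    · rintro ⟨⟨r, i⟩, ⟨hr, hi⟩, rfl⟩
      have hr' : r < b := hr
      have hi' : i < d + 1 - (b * k + r) := hi
      obtain ⟨g1, g2⟩ := divmod b k r hr'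
      refine ⟨⟨(i, b * k + r), ⟨Nat.zero_le _, ?_⟩, ?_⟩, rfl⟩
      · show i + (b * k + r) ≤ d
        omega
      · unfold sig
        show (b * i + (b * k + r) % b, (b * k + r) / b) = (b * i + r, k)
        rw [g1, g2]
  rw [h1, card_image_of_injOn, card_sigma]
  · apply sum_congr rfl
    intro j _
    rw [card_range]
  · rintro ⟨r, i⟩ hp ⟨r', i'⟩ hp' h
    simp only [coe_sigma, Set.mem_sigma_iff, mem_coe, mem_range] at hp hp'
    have h2 : b * i + r = b * i' + r' := congrArg Prod.fst h
    have a1 := divmod b i r hp.1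
    have a2 := divmod b i' r' hp'.1
    rw [h2] at a1
    have e1 : i = i' := a1.1.symm.trans a2.1
    have e2 : r = r' := a1.2.symm.trans a2.2
    subst e1 e2
    rfl

lemma sumid (b : ℕ) : 2 * ∑ j ∈ range b, (b + 1 - j) = b ^ 2 + 3 * b := by
  have h : ∀ n ≤ b, 2 * ∑ j ∈ range n, (b + 1 - j) + n * n = 2 * b * n + 3 * n := by
    intro n
    induction n with
    | zero => intro _; simp
    | succ n ih =>
      intro hn
      have := ih (by omega)
      rw [sum_range_succ]
      have e : b + 1 - n + n = b + 1 := by omega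
      nlinarith
  have := h b le_rfl
  nlinarith

theorem goalF1 : GoalF1 := by
  intro b d hb
  have hcard : ∀ k < d / b + 1, (((triD 0 d).image (sig b)).filter (fun x => x.2 = k)).card =
      rl b d (d / b - k) := fun k hk => rowcard b d k hb hk
  have hlt : ∀ x ∈ (triD 0 d).image (sig b), x.2 < d / b + 1 := by
    intro x hx
    rw [mem_image] at hx
    obtain ⟨y, hy, rfl⟩ := hx
    rw [mem_triD] at hy
    show y.2 / b < d / b + 1
    exact Nat.lt_succ_of_le (Nat.div_le_div_right (by omega))
  refine ⟨?_, hlt, hcard, ?_, ?_, ?_⟩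
  · intro x hx hbx
    rw [mem_triD] at hx ⊢
    refine ⟨Nat.zero_le _, ?_⟩
    show x.1 + 1 + (x.2 - b) ≤ d
    omega
  · rw [← card_triD, ← card_image_of_injective (triD 0 d) (sig_inj b hb)]
    rw [card_eq_sum_card_fiberwise (f := fun x : ℕ × ℕ => x.2) (t := range (d / b + 1))
      (fun x hx => by
        rw [mem_coe] at hx ⊢
        exact mem_range.mpr (hlt x hx))]
    rw [sum_congr rfl (fun k hk => hcard k (mem_range.mp hk))]
    rw [← sum_range_reflect]
    apply sum_congr rfl
    intro k hk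
    rw [mem_range] at hk
    congr 1
  · intro hbd
    have hq : 1 ≤ d / b := (Nat.one_le_div_iff hb).mpr hbd
    have hm := Nat.mod_lt d hb
    have hd := Nat.div_add_mod d b
    set ρ := d % b with hρ
    obtain ⟨q, hq'⟩ : ∃ q, d / b = q + 1 := ⟨d / b - 1, by omega⟩
    have h0 : rl b d 0 = ∑ j ∈ range b, (ρ + 1 - j) := by
      unfold rl
      apply sum_congr rfl
      intro j hj
      rw [Nat.sub_zero]
      omega
    have h1 : rl b d 1 = ∑ j ∈ range b, (ρ + 1 + b - j) := by
      unfold rl
      apply sum_congr rfl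
      intro j hj
      rw [hq'] at hd ⊢
      rw [Nat.add_sub_cancel]
      rw [Nat.mul_add, Nat.mul_one] at hd
      omega
    have h2 : ∑ j ∈ range b, (ρ + 1 - j) + ∑ j ∈ range b, (b + 1 - j) ≤
        ∑ j ∈ range b, (ρ + 1 + b - j) + 1 := by
      have h3 : ∑ j ∈ range b, (if j = 0 then 1 else 0) = 1 := by
        rw [sum_ite_eq' (range b) 0 (fun _ => 1)]
        rw [if_pos (mem_range.mpr (by omega))]
      calc ∑ j ∈ range b, (ρ + 1 - j) + ∑ j ∈ range b, (b + 1 - j)
          = ∑ j ∈ range b, ((ρ + 1 - j) + (b + 1 - j)) := by rw [sum_add_distrib]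
        _ ≤ ∑ j ∈ range b, ((ρ + 1 + b - j) + (if j = 0 then 1 else 0)) := by
            apply sum_le_sum
            intro j hj
            rw [mem_range] at hj
            by_cases hj0 : j = 0
            · rw [if_pos hj0]; omega
            · rw [if_neg hj0]; omega
        _ = ∑ j ∈ range b, (ρ + 1 + b - j) + 1 := by rw [sum_add_distrib, h3]
    rw [h0, h1]
    have h4 := sumid b
    have h5 : 1 ≤ b ^ 2 := Nat.one_le_pow _ _ hb
    generalize ∑ j ∈ range b, (ρ + 1 - j) = A at *
    generalize ∑ j ∈ range b, (ρ + 1 + b - j) = B at *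
    generalize ∑ j ∈ range b, (b + 1 - j) = C at *
    generalize b ^ 2 = b2 at *
    omega
  · intro y hy hyd
    have hd := Nat.div_add_mod d b
    have hm := Nat.mod_lt d hb
    obtain ⟨q, hq'⟩ : ∃ q, d / b = q + (y + 1) := ⟨d / b - (y + 1), by omega⟩
    unfold rl
    rw [hq'] at hd ⊢
    have e1 : q + (y + 1) - (y + 1) = q := by omega
    have e2 : q + (y + 1) - y = q + 1 := by omega
    rw [e1, e2]
    have h1 : ∀ j ∈ range b, d + 1 - (b * q + j) = d + 1 - (b * (q + 1) + j) + b := by
      intro j hj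
      rw [mem_range] at hj
      have h2 : b * (q + (y + 1)) = b * q + b * y + b := by ring
      have h3 : b * (q + 1) = b * q + b := by ring
      have h4 : b ≤ b * y := Nat.le_mul_of_pos_right b hy
      rw [h2] at hd
      rw [h3]
      omega
    rw [sum_congr rfl h1, sum_add_distrib, sum_const, card_range, smul_eq_mul, sq]

end Pool.Agent.Helper34.SG
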